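import Pool.Agent.K1H73.SQB.Stm2

set_option autoImplicit false

namespace Pool.Agent.K1H29.SQB

open Finset Pool.Agent.K1H73.SQB

/-- **Piece MUL2.** -/
theorem t_MUL2 : S_MUL2 := by
  classical
  intro k J T s κ S U f hf hs hU
  have hmap : ∀ G ∈ (bx κ S U).filter (fun G => ∀ i j, i ≠ j → s i = s j → Disjoint (G i) (G j)),
      uc s G ∈ powersetCard (∑ i, κ i) (EE J T) := by
    intro G hG
    rw [mem_filter] at hG
    obtain ⟨h1, h2⟩ := hG
    unfold bx at h1
    rw [Fintype.mem_piFinset] at h1
    rw [mem_powersetCard]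
    constructor
    · intro x hx
      unfold uc at hx
      rw [mem_biUnion] at hx
      obtain ⟨i, -, hi⟩ := hx
      rw [mem_image] at hi
      obtain ⟨h, hh, rfl⟩ := hi
      have h3 := (mem_powersetCard.1 (h1 i)).1 hh
      rw [mem_Ioc] at h3
      unfold EE
      rw [mem_product, mem_range, mem_Icc]
      have h4 := hU i
      have h5 := hs i
      dsimp only
      omega
    · unfold uc
      rw [card_biUnion]
      · refine sum_congr rfl fun i _ => ?_
        rw [card_image_of_injective _ (fun x y hxy => (Prod.mk.injEq _ _ _ _ ▸ hxy).2)]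
        exact (mem_powersetCard.1 (h1 i)).2
      · intro i _ j _ hij
        show Disjoint _ _
        rw [Finset.disjoint_left]
        intro x hx hx'
        rw [mem_image] at hx hx'
        obtain ⟨h, hh, rfl⟩ := hx
        obtain ⟨h', hh', he⟩ := hx'
        rw [Prod.mk.injEq] at he
        obtain ⟨he1, rfl⟩ := he
        exact (Finset.disjoint_left.1 (h2 i j hij he1.symm)) hh hh'
  rw [← sum_fiberwise_of_maps_to hmap, mul_sum]
  refine sum_le_sum fun H hH => ?_
  have hHc := (mem_powersetCard.1 hH).2
  have e1 : ∑ G ∈ ((bx κ S U).filter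
      (fun G => ∀ i j, i ≠ j → s i = s j → Disjoint (G i) (G j))).filter
      (fun G => uc s G = H), f (uc s G) =
      ((((bx κ S U).filter (fun G => ∀ i j, i ≠ j → s i = s j → Disjoint (G i) (G j))).filter
        (fun G => uc s G = H)).card : ℝ) * f H := by
    rw [sum_congr rfl (g := fun _ => f H), sum_const, nsmul_eq_mul]
    intro G hG
    rw [(mem_filter.1 hG).2]
  refine e1.le.trans (mul_le_mul_of_nonneg_right ?_ (hf H))
  have e2 : (((bx κ S U).filter (fun G => ∀ i j, i ≠ j → s i = s j → Disjoint (G i) (G j))).filter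
        (fun G => uc s G = H)).card ≤
        (Fintype.piFinset (fun _ : Fin k => (H.image Prod.snd).powerset)).card := by
    refine card_le_card fun G hG => ?_
    rw [Fintype.mem_piFinset]
    intro i
    rw [mem_powerset, ← (mem_filter.1 hG).2]
    intro h hh
    rw [mem_image]
    refine ⟨(s i, h), ?_, rfl⟩
    unfold uc
    rw [mem_biUnion]
    exact ⟨i, mem_univ i, mem_image_of_mem _ hh⟩
  have e3 : (Fintype.piFinset (fun _ : Fin k => (H.image Prod.snd).powerset)).card ≤
      2 ^ (k * ∑ i, κ i) := by
    rw [Fintype.card_piFinset, prod_const, card_powerset, card_univ, Fintype.card_fin,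
      ← pow_mul, mul_comm]
    apply Nat.pow_le_pow_right (by norm_num)
    apply Nat.mul_le_mul_left
    rw [← hHc]
    exact card_image_le
  have e4 := e2.trans e3
  exact_mod_cast e4

end Pool.Agent.K1H29.SQB
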